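import Pool.Agent.MP_ccce09_ag.Defs

set_option autoImplicit false

namespace Pool.Agent.MP_ccce09_ag

variable (R : Type) [CommRing R] (P : Ideal R) [P.IsPrime]

/-- The prime divisor of `Spec R` lying under a prime divisor of `Spec R_P`. -/
def underDiv (Q : PrimeDiv (Localization.AtPrime P)) : PrimeDiv R :=
  ⟨PrimeSpectrum.comap (algebraMap R (Localization.AtPrime P)) Q.1,
    (IsLocalization.height_under P.primeCompl Q.1.asIdeal).trans Q.2⟩

theorem underDiv_injective : Function.Injective (underDiv R P) := fun _ _ h =>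
  Subtype.ext (PrimeSpectrum.localization_comap_injective (Localization.AtPrime P) P.primeCompl
    (congrArg Subtype.val h))

/-- The restriction `Δ_P` of a divisor `Δ` on `Spec R` to `Spec R_P`. -/
noncomputable def restrictDiv (Δ : PrimeDiv R →₀ ℚ) : PrimeDiv (Localization.AtPrime P) →₀ ℚ :=
  Finsupp.comapDomain (underDiv R P) Δ (underDiv_injective R P).injOn

/-- `n (K + Δ)` is principal on a basic open neighbourhood `D(f)` of `P`, for some `n ≥ 1`
prime to `p`. -/
def QCartierNear (p : ℕ) (K : PrimeDiv R →₀ ℤ) (Δ : PrimeDiv R →₀ ℚ) : Prop :=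
  ∃ n : ℕ, 1 ≤ n ∧ ¬ p ∣ n ∧ ∃ f : R, f ∉ P ∧ ∃ g : FractionRing R, g ≠ 0 ∧
    ∀ Q : PrimeDiv R, f ∉ Q.1.asIdeal → (ordAt R Q g : ℚ) = n * (K Q + Δ Q)

end Pool.Agent.MP_ccce09_ag
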